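import Pool.Agent.Helper26_BSN.Defs2

/-!
# Modules CDT and CDS: expressions for `Δ₀` and `Σ_j` relations on `ℕ`
-/

namespace Pool.Agent.BSN.H87

open Pool.Agent.BSig Pool.Agent.BSN

/-- The expression of a path. -/
def pex : List Bool → Ex
  | [] => .self
  | true :: l => .right (pex l)
  | false :: l => .left (pex l)

theorem pex_val (l : List Bool) (x : ℕ) : (pex l).val x = evp l x := by
  induction l with
  | nil => simp [pex, Ex.val, evp]
  | cons b l ih =>
    cases b
    · simp [pex, Ex.val, evp, ih]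
    · simp [pex, Ex.val, evp, ih]

theorem evp_append (l l' : List Bool) (x : ℕ) : evp (l ++ l') x = evp l (evp l' x) := by
  induction l with
  | nil => simp [evp]
  | cons b l ih => simp [evp, ih]

theorem termEx {k : ℕ} {f : (Fin k → ℕ) → ℕ} (hf : IsTerm f) (α : Fin k → List Bool) :
    ∃ E : Ex, ∀ x, E.val x = f (fun i => evp (α i) x) := by
  induction hf with
  | param c => exact ⟨.const c, fun x => rfl⟩
  | var i => exact ⟨pex (α i), fun x => pex_val _ x⟩
  | add _ _ ih1 ih2 =>
    obtain ⟨E1, h1⟩ := ih1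
    obtain ⟨E2, h2⟩ := ih2
    exact ⟨.add E1 E2, fun x => by simp only [Ex.val, h1, h2]⟩
  | mul _ _ ih1 ih2 =>
    obtain ⟨E1, h1⟩ := ih1
    obtain ⟨E2, h2⟩ := ih2
    exact ⟨.mul E1 E2, fun x => by simp only [Ex.val, h1, h2]⟩
  | pow2 _ ih1 =>
    obtain ⟨E1, h1⟩ := ih1
    exact ⟨.pow E1, fun x => by simp only [Ex.val, h1]; rfl⟩

theorem codeDelta (hN : NatStmt) : CodeDelta := by
  intro k P hP
  induction hP with
  | eq hf hg =>
    intro α
    obtain ⟨E1, h1⟩ := termEx hf α
    obtain ⟨E2, h2⟩ := termEx hg α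
    refine ⟨.eq E1 E2, fun x => ?_⟩
    simp only [VV, Ex.val, h1, h2]
    split_ifs with h <;> simp [h]
  | le hf hg =>
    intro α
    obtain ⟨E1, h1⟩ := termEx hf α
    obtain ⟨E2, h2⟩ := termEx hg α
    refine ⟨.le E1 E2, fun x => ?_⟩
    simp only [VV, Ex.val, h1, h2]
    split_ifs with h
    · exact ⟨fun _ => h, fun _ => one_ne_zero⟩
    · exact ⟨fun h' => absurd rfl h', fun h' => absurd h' h⟩
  | not _ ih =>
    intro α
    obtain ⟨E, h⟩ := ih α
    refine ⟨.not E, fun x => ?_⟩
    show _ ↔ ¬ _
    rw [← h x]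
    simp only [VV, Ex.val]
    split_ifs with h' <;> simp [h']
  | and _ _ ih1 ih2 =>
    intro α
    obtain ⟨E1, h1⟩ := ih1 α
    obtain ⟨E2, h2⟩ := ih2 α
    refine ⟨.and E1 E2, fun x => ?_⟩
    show _ ↔ _ ∧ _
    rw [← h1 x, ← h2 x]
    simp only [VV, Ex.val]
    split_ifs with h'
    · exact ⟨fun _ => h', fun _ => one_ne_zero⟩
    · exact ⟨fun h => absurd rfl h, fun h => absurd h h'⟩
  | @ball k f Q hf _ ih =>
    intro α
    obtain ⟨E1, h1⟩ := termEx hf α
    obtain ⟨E2, h2⟩ := ih (Fin.cons [false] (fun i => α i ++ [true]))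
    refine ⟨.ball E1 E2, fun x => ?_⟩
    have key : ∀ z : ℕ, E2.val (npr z x) ≠ 0 ↔ Q (Fin.cons z (fun i => evp (α i) x)) := by
      intro z
      have h3 := h2 (npr z x)
      have h4 : (fun i => evp ((Fin.cons [false] (fun i => α i ++ [true]) :
          Fin (k + 1) → List Bool) i) (npr z x)) = Fin.cons z (fun i => evp (α i) x) := by
        funext i
        refine Fin.cases ?_ (fun i => ?_) i
        · simp [evp, hN.1]
        · simp [evp_append, evp, hN.2.1]
      rw [h4] at h3
      exact h3
    simp only [VV, Ex.val, h1]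
    split_ifs with h
    · exact ⟨fun _ z hz => (key z).1 (h z hz), fun _ => one_ne_zero⟩
    · exact ⟨fun h' => absurd rfl h', fun h' => absurd (fun z hz => (key z).2 (h' z hz)) h⟩

/-- The path of a component of a tuple. -/
def proj (t : ℕ) : List Bool := false :: List.replicate t true

theorem evp_replicate_succ (t u : ℕ) :
    evp (List.replicate (t + 1) true) u = evp (List.replicate t true) (rt u) := by
  rw [List.replicate_succ', evp_append]
  simp [evp]

theorem evp_proj_succ (t u : ℕ) : evp (proj (t + 1)) u = evp (proj t) (rt u) := by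
  unfold proj
  simp only [evp, evp_replicate_succ]

theorem evp_proj_env (hN : NatStmt) {i : ℕ} (w : Fin i → ℕ) (t : Fin i) :
    evp (proj t) (env w) = w t := by
  induction i with
  | zero => exact t.elim0
  | succ i ih =>
    refine Fin.cases ?_ (fun t => ?_) t
    · simp [proj, evp, env, hN.1]
    · rw [Fin.val_succ, evp_proj_succ]
      simp only [env, hN.2.1]
      rw [ih (Fin.tail w) t]
      rfl

theorem codeSigma (hD : CodeDelta) (hN : NatStmt) : CodeSigma := by
  intro j
  induction j with
  | zero => intro k P hP α; exact hD k P hP α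
  | succ j ih =>
    rintro k P ⟨i, Q, hQ, hPQ⟩ α
    obtain ⟨E, hE⟩ := ih (i + k) Q hQ
      (Fin.append (fun t : Fin i => proj t ++ [false]) (fun t => α t ++ [true]))
    refine ⟨E, fun x => ?_⟩
    have key : ∀ u : ℕ, VV j E (npr u x) ↔
        Q (Fin.append (fun t : Fin i => evp (proj t) u) (fun t => evp (α t) x)) := by
      intro u
      rw [hE]
      have h4 : (fun s => evp ((Fin.append (fun t : Fin i => proj t ++ [false])
          (fun t => α t ++ [true]) : Fin (i + k) → List Bool) s) (npr u x)) =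
          Fin.append (fun t : Fin i => evp (proj t) u) (fun t => evp (α t) x) := by
        funext s
        refine Fin.addCases (fun t => ?_) (fun t => ?_) s
        · simp [evp_append, evp, hN.1]
        · simp [evp_append, evp, hN.2.1]
      rw [h4]
    rw [hPQ]
    constructor
    · rintro ⟨u, hu⟩
      exact ⟨_, fun h => hu ((key u).2 h)⟩
    · rintro ⟨w, hw⟩
      refine ⟨env w, fun h => hw ?_⟩
      have h5 := (key (env w)).1 h
      have h6 : (fun t : Fin i => evp (proj t) (env w)) = w := funext fun t => evp_proj_env hN w t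
      rwa [h6] at h5

end Pool.Agent.BSN.H87
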